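import Pool.Agent.H167R3.HW.Wild
import Pool.Agent.H167R3.HW.Defs

/-!
# Small networks for Hamiltonicity contain many gates that are far from symmetric

The output of a network for Hamiltonicity is invariant under all relabelings of the vertices. Here
it is shown that the functions computed inside a small network cannot all be nearly invariant, even
if only few relabelings are considered. Take `r` disjoint quadruples of vertices and the group of the
`4 ^ r` products of double transpositions of the quadruples. In a circuit `C` of fan-in at most `w`
(over any basis, with values in any set) that decides Hamiltonicity let `t` be the number of the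
gates whose functions have more than `m` transforms under this group. Then
`2 ^ (r / 2000000) ≤ |C| * (16 * m ^ w) ^ (t + 1)`. So a network of fan-in two and of polynomial size
contains, for all `n / 4` quadruples of a partition of the `n` vertices, at least `c n / log n`
gates whose functions have more than `n ^ k` transforms, for every `k`.
-/

namespace Pool.Agent.Results.MP_6b3410_lc.AsymmetricGates

open Pool.Agent.H429R4.Sem (Circuit)
open Pool.Agent.H429R4.GC (adj)
open Pool.Agent.H167R3.HW (transforms)

/-- **The number of asymmetric gates in circuits for Hamiltonicity.** -/
theorem result (V D L : Type) [Fintype V] [DecidableEq V] (C : Circuit (V × V) D L) (acc : Set D)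
    (hC : ∀ G : SimpleGraph V, C.output (adj G) ∈ acc ↔ G.IsHamiltonian) (w : ℕ)
    (hw : ∀ g, Multiset.card (C.wires g) ≤ w) (r : ℕ)
    (quad : Fin r × (ZMod 2 × ZMod 2) ↪ V) (m : ℕ) (hm : 0 < m) :
    2 ^ (r / 2000000) ≤
      C.size * (16 * m ^ w) ^ (Nat.card {g : C.Gate // m < transforms C quad g} + 1) :=
  Pool.Agent.H167R3.HW.wild_gates quad C acc hC hm hw

end Pool.Agent.Results.MP_6b3410_lc.AsymmetricGates
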