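import Pool.Agent.H167R3.HW.Local
import Pool.Agent.H167R3.HW.Karp

/-!
# Circuits with few wirings up to relabeling cannot decide Hamiltonicity

A relabeling of the vertices turns the wiring of a gate of a circuit on graphs (the bit that the
gate reads, and the multiset of the labelled functions on the wires that enter it) into a transform
of the wiring. No symmetry of the circuit is assumed, the circuit is nonuniform, and the gates may
compute arbitrary functions of unbounded fan-in with values in an arbitrary set. For every number
`n` of vertices there is one pair of graphs `G`, `H`, where `G` is Hamiltonian and `H` is not, such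
that every circuit with fewer than `2 ^ (n / 8000000)` different transforms of wirings outputs any
value for exactly as many relabelings of `G` as of `H`. The bound is optimal up to a constant factor
in the exponent: dynamic programming over the sets of vertices gives a circuit for Hamiltonicity
with at most `2 ^ n * (n + 1) ^ 3` transforms of wirings.

The lower bound puts the gadget of the files `H545R2/K*` (parity constraints on an expander, encoded
by a graph with a linear number of vertices) into the argument of the files `H429R4/GC` (invisible
shifts of the right-hand sides of a linear system).
-/

namespace Pool.Agent.Results.MP_6b3410_lc.FewRelabelings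

open Pool.Agent.H429R4.Sem (Circuit)
open Pool.Agent.H429R4.GC (adj numWirings relabelings)

/-- **Circuits with few wirings up to relabeling cannot decide Hamiltonicity.** -/
theorem result (V : Type) [Fintype V] [DecidableEq V] (hV : 8000000 ≤ Fintype.card V) :
    (∃ G H : SimpleGraph V, G.IsHamiltonian ∧ ¬ H.IsHamiltonian ∧
      ∀ (D L : Type) (C : Circuit (V × V) D L) (d : D),
        numWirings adj C (relabelings V) < 2 ^ (Fintype.card V / 8000000) →
        Nat.card {σ : Equiv.Perm V // C.output (adj (G.comap σ)) = d} =
          Nat.card {σ : Equiv.Perm V // C.output (adj (H.comap σ)) = d}) ∧
    ∃ C : Circuit (V × V) Bool Unit,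
      numWirings adj C (relabelings V) ≤ 2 ^ Fintype.card V * (Fintype.card V + 1) ^ 3 ∧
      ∀ G : SimpleGraph V, C.output (adj G) = true ↔ G.IsHamiltonian :=
  ⟨Pool.Agent.H167R3.HW.global_pair V hV,
    Pool.Agent.H167R3.HW.karp V, Pool.Agent.H167R3.HW.numWirings_karp,
    Pool.Agent.H167R3.HW.karp_output (by omega)⟩

end Pool.Agent.Results.MP_6b3410_lc.FewRelabelings
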