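import Pool.Agent.H502R3.FP.LocalPair

/-!
# Few local relabelings suffice to make Hamiltonicity hard for circuits with few wirings

Take `r` disjoint quadruples of vertices and the group of the `4 ^ r` products of double
transpositions of the quadruples (translations, when every quadruple is indexed by the Klein
four-group). A translation turns the wiring of a gate of a circuit on graphs (the bit that the gate
reads, and the multiset of the labelled functions on the wires that enter it) into a transform of
the wiring. No symmetry of the circuit is assumed, and the gates may compute arbitrary functions of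
unbounded fan-in with values in an arbitrary set.

1. For `m ≥ 1`, `r ≥ 2000000 m` and `|V| ≥ 4 r` there are a Hamiltonian graph `H` and a
non-Hamiltonian graph `H'` on `V`, fixed for all quadruples and all circuits: if the wirings of a
circuit have fewer than `2 ^ m` transforms under the translations of the quadruples, then some
copies `G` of `H` and `G'` of `H'` on `V` have the property that every value is output by the circuit
for exactly as many of the `4 ^ r` translates of `G` as of `G'`.

2. So the wirings of every circuit for Hamiltonicity have at least `2 ^ (r / 2000000)` transforms
under the translations of any `r` disjoint quadruples.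

In a network that is symmetric on the quadruples the number of these transforms is at most the
number of gates (the starting result `QuadrupleSymmetry`). The machine is that of helper167 and
helper429 (`H167R3/HW`, `H429R4/GC`), the gadget that of the starting files `H545R2/K*`; part 2 is
the theorem `local_lower` of `H167R3/HW/Local.lean`, which had not been handed in.
-/

set_option autoImplicit false

namespace Pool.Agent.Results.MP_6b3410_lc.LocalRelabelings

open Pool.Agent.H429R4.Sem (Circuit)
open Pool.Agent.H429R4.GC (adj numWirings)
open Pool.Agent.H167R3.HW (transl)

theorem result :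
    (∀ (V : Type) [Fintype V] [DecidableEq V] (r m : ℕ), 0 < m → 2000000 * m ≤ r →
      4 * r ≤ Fintype.card V →
      ∃ H H' : SimpleGraph V, H.IsHamiltonian ∧ ¬ H'.IsHamiltonian ∧
        ∀ (quad : Fin r × (ZMod 2 × ZMod 2) ↪ V) (D L : Type) (C : Circuit (V × V) D L),
          numWirings adj C (Set.range fun (κ : Fin r → ZMod 2 × ZMod 2) (G : SimpleGraph V) =>
            G.comap (transl quad κ)) < 2 ^ m →
          ∃ G G' : SimpleGraph V, Nonempty (G ≃g H) ∧ Nonempty (G' ≃g H') ∧ ∀ d : D,
            Nat.card {κ : Fin r → ZMod 2 × ZMod 2 //
                C.output (adj (G.comap (transl quad κ))) = d} =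
              Nat.card {κ : Fin r → ZMod 2 × ZMod 2 //
                C.output (adj (G'.comap (transl quad κ))) = d}) ∧
    (∀ (V D L : Type) [Fintype V] [DecidableEq V] (C : Circuit (V × V) D L) (acc : Set D),
      (∀ G : SimpleGraph V, C.output (adj G) ∈ acc ↔ G.IsHamiltonian) →
      ∀ (r : ℕ) (quad : Fin r × (ZMod 2 × ZMod 2) ↪ V),
        2 ^ (r / 2000000) ≤ numWirings adj C
          (Set.range fun (κ : Fin r → ZMod 2 × ZMod 2) (G : SimpleGraph V) =>
            G.comap (transl quad κ))) :=
  ⟨fun V _ _ r m hm hmr hV => Pool.Agent.H502R3.FP.local_pair V r m hm hmr hV,
    fun _ _ _ _ _ C acc hC _ quad => Pool.Agent.H167R3.HW.local_lower C acc hC quad⟩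

end Pool.Agent.Results.MP_6b3410_lc.LocalRelabelings
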