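import Pool.Agent.H641R3.RG.MainH

/-!
# Nondeterministic read-once programs cannot tell Hamiltonian graphs from graphs that are far from
Hamiltonian

A nondeterministic (syntactic) read-once branching program needs `2 ^ (c n)` nodes if it accepts all
Hamiltonian graphs with `n` vertices and rejects all graphs in which every set of edges with at most
two edges at each vertex has fewer than `(1 - 1 / 3072) n` edges. (Such graphs have no path through
`(1 - 1 / 3072) n + 1` vertices and are far from having a 2-factor.) The bound is optimal up to the
constant `c`: about `n ^ 2 2 ^ n` nodes suffice to decide Hamiltonicity.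

Proof: for a permutation `π` of `h = n / 6` objects consider the Hamiltonian cycle
`(i,0), (i,1), (i,2), (π i,3), (π i,4), (π i,5), (i+1,0), ...`. An accepting computation on it is cut
into `385` pieces such that no piece reads more than `1 / 384` of the edges of the cycle. All cycles
with the same cutting points can be mixed: the program accepts the graph whose edges are, for each
piece `t`, the edges read in the piece `t` that lie on the cycle of `π_t`. The vertices `(i,1)` and
`(j,4)` have only two neighbours in such a graph, so that a large set of edges with at most two edges
at each vertex yields an almost perfect matching of the numbers `i` with the numbers `j` whose pairs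
`i, j` are read in a piece `t` with `π_t i = j`. A given matching occurs for a fraction of about
`h ^ (-h)` of the choices of the `π_t` only, and there are about `(h / e) ^ h` matchings.
-/

set_option autoImplicit false

namespace Pool.Agent.Results.MP_6b3410_lc.ReadOnceGap

open Pool.Agent.H554R2.Sem Pool.Agent.H554R2.RK Pool.Agent.H641R3.RG

/-- `φ` enumerates the pairs of vertices; `graphOf φ x` is the graph in which the pair `φ i` is
joined if and only if `x i = true`. -/
theorem result (h N : ℕ) (hh : 64 ≤ h) (φ : Fin N ≃ {e : Sym2 (Fin (h * 6)) // ¬ e.IsDiag})
    (P : NBP (Fin N)) (hP : ReadK P 1)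
    (hyes : ∀ x, (graphOf φ x).IsHamiltonian → Acc P x)
    (hno : ∀ x, (∀ Q : Finset (Sym2 (Fin (h * 6))), (∀ e ∈ Q, e ∈ (graphOf φ x).edgeSet) →
      (∀ v, (Q.filter (fun e => v ∈ e)).card ≤ 2) → 3072 * Q.card < 3071 * (h * 6)) →
      ¬ Acc P x) :
    2 ^ (h / 2) ≤ (Fintype.card P.State + 1) ^ (2 ^ 20) := by
  refine lowerH h N hh φ P hP hyes fun x hx => ?_
  by_contra hcon
  push Not at hcon
  exact hno x (fun Q h1 h2 => hcon Q h1 h2) hx

end Pool.Agent.Results.MP_6b3410_lc.ReadOnceGap
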